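import Mathlib
import Pool.Agent.W262.TW.Stm
import Pool.Agent.W262.RK.SymL

/-!
Project TW: the terms with two large linked variables.
-/

set_option autoImplicit false

namespace Pool.Agent.W924.TW

open Finset Pool.Agent.W262.RK Pool.Agent.W262.TW

variable {ι I : Type} [Fintype ι] [DecidableEq ι]

lemma abs_mf_le {b : ℕ → ℝ} (hb : ∀ p, |b p| ≤ 1) (n : ℕ) : |mf b n| ≤ 1 :=
  abs_prod_le_one _ _ fun p _ => hb p

omit [Fintype ι] in
lemma prod_upd (S : Finset ι) (e : ι → ℕ) (i : ι) (h1 : e i = 1) (m : ℕ) :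
    ∏ a ∈ S, Function.update e i m a = (if i ∈ S then m else 1) * ∏ a ∈ S, e a := by
  by_cases h : i ∈ S
  · rw [if_pos h, prod_update_of_mem h, ← mul_prod_erase S e h, h1, one_mul,
      sdiff_singleton_eq_erase]
  · rw [if_neg h, prod_update_of_notMem h, one_mul]

/-- the vector with the entries `m` and `n` -/
def upd (e : ι → ℕ) (a0 b0 : ι) (m n : ℕ) : ι → ℕ :=
  Function.update (Function.update e b0 n) a0 m

omit [Fintype ι] in
lemma upd_a (e : ι → ℕ) (a0 b0 : ι) (m n : ℕ) : upd e a0 b0 m n a0 = m := by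
  simp [upd]

omit [Fintype ι] in
lemma upd_b (e : ι → ℕ) {a0 b0 : ι} (h : b0 ≠ a0) (m n : ℕ) : upd e a0 b0 m n b0 = n := by
  simp [upd, h]

omit [Fintype ι] in
lemma upd_c (e : ι → ℕ) {a0 b0 c : ι} (h : c ≠ a0) (h' : c ≠ b0) (m n : ℕ) :
    upd e a0 b0 m n c = e c := by
  simp [upd, h, h']

omit [Fintype ι] in
lemma prod_upd2 (S : Finset ι) (e : ι → ℕ) {a0 b0 : ι} (h : b0 ≠ a0) (ha : e a0 = 1)
    (hb : e b0 = 1) (m n : ℕ) : ∏ a ∈ S, upd e a0 b0 m n a =
      (if a0 ∈ S then m else 1) * ((if b0 ∈ S then n else 1) * ∏ a ∈ S, e a) := by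
  unfold upd
  rw [prod_upd S _ a0 (by rw [Function.update_of_ne h.symm]; exact ha), prod_upd S e b0 hb]

/-- the conditions -/
def Q (g : ι → I) (z Y V V0 : ℕ) (A : Finset ι) (e : ι → ℕ) : Prop :=
  (∀ a, Rg z (e a)) ∧ (∀ a b, a ≠ b → (e a).Coprime (e b)) ∧ ∏ a, e a ≤ Y ∧
    (∀ i, V < ∏ a ∈ @Finset.filter _ (fun a => g a = i) (fun _ => Classical.propDecidable _) univ,
      e a) ∧ ∀ a, a ∈ A ↔ V0 < e a

/-- the conditions for the other variables -/
def QO (g : ι → I) (z V V0 : ℕ) (A : Finset ι) (a0 b0 : ι) (e : ι → ℕ) : Prop :=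
  (∀ a, a ≠ a0 → a ≠ b0 → Rg z (e a)) ∧
  (∀ a b, a ≠ b → a ≠ a0 → a ≠ b0 → b ≠ a0 → b ≠ b0 → (e a).Coprime (e b)) ∧
  (∀ i, i ≠ g a0 → i ≠ g b0 →
    V < ∏ a ∈ @Finset.filter _ (fun a => g a = i) (fun _ => Classical.propDecidable _) univ,
      e a) ∧
  ∀ a, a ≠ a0 → a ≠ b0 → (a ∈ A ↔ V0 < e a)

/-- the conditions for one variable -/
def Q1 (g : ι → I) (z V : ℕ) (a0 b0 c : ι) (e : ι → ℕ) (m : ℕ) : Prop :=
  Rg z m ∧ (∀ a, a ≠ a0 → a ≠ b0 → m.Coprime (e a)) ∧
    V < m * ∏ a ∈ @Finset.filter _ (fun a => g a = g c) (fun _ => Classical.propDecidable _) univ,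
      e a

lemma Q_iff (g : ι → I) (z Y V V0 : ℕ) (A : Finset ι) {a0 b0 : ι} (hg : g a0 ≠ g b0)
    (ha0 : a0 ∈ A) (hb0 : b0 ∈ A) (e : ι → ℕ) (ha : e a0 = 1) (hb : e b0 = 1)
    (hP : 0 < ∏ a, e a) (m n : ℕ) :
    Q g z Y V V0 A (upd e a0 b0 m n) ↔ QO g z V V0 A a0 b0 e ∧ Q1 g z V a0 b0 a0 e m ∧
      Q1 g z V a0 b0 b0 e n ∧ m.Coprime n ∧ (V0 < m ∧ V0 < n ∧ m * n ≤ Y / ∏ a, e a) := by
  classical
  have hne : b0 ≠ a0 := fun h => hg (by rw [h])
  have e1 := upd_a e a0 b0 m n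
  have e2 := upd_b e hne m n
  have e3 : ∀ c, c ≠ a0 → c ≠ b0 → upd e a0 b0 m n c = e c := fun c h h' => upd_c e h h' m n
  have hprod := fun S : Finset ι => prod_upd2 S e hne ha hb m n
  have hY : m * (n * ∏ a, e a) ≤ Y ↔ m * n ≤ Y / ∏ a, e a := by
    rw [Nat.le_div_iff_mul_le hP, mul_assoc]
  unfold Q QO Q1
  simp only [hprod, mem_filter, mem_univ, true_and, if_true, hY]
  constructor
  · rintro ⟨h1, h2, h3, h4, h5⟩
    refine ⟨⟨fun a p q => ?_, fun a b hab p q p' q' => ?_, fun i p q => ?_, fun a p q => ?_⟩,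
      ⟨?_, fun a p q => ?_, ?_⟩, ⟨?_, fun a p q => ?_, ?_⟩, ?_, ?_, ?_, h3⟩
    · have := h1 a
      rwa [e3 a p q] at this
    · have := h2 a b hab
      rwa [e3 a p q, e3 b p' q'] at this
    · have := h4 i
      rwa [if_neg (fun h => p h.symm), if_neg (fun h => q h.symm), one_mul, one_mul] at this
    · have := h5 a
      rwa [e3 a p q] at this
    · have := h1 a0
      rwa [e1] at this
    · have := h2 a0 a (fun h => p h.symm)
      rwa [e1, e3 a p q] at this
    · have := h4 (g a0)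
      rwa [if_pos rfl, if_neg (fun h => hg h.symm), one_mul] at this
    · have := h1 b0
      rwa [e2] at this
    · have := h2 b0 a (fun h => q h.symm)
      rwa [e2, e3 a p q] at this
    · have := h4 (g b0)
      rwa [if_neg hg, if_pos rfl, one_mul] at this
    · have := h2 a0 b0 hne.symm
      rwa [e1, e2] at this
    · have := (h5 a0).1 ha0
      rwa [e1] at this
    · have := (h5 b0).1 hb0
      rwa [e2] at this
  · rintro ⟨⟨h1, h2, h3, h4⟩, ⟨h5, h6, h7⟩, ⟨h8, h9, h10⟩, h11, h12, h13, h14⟩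
    refine ⟨fun a => ?_, fun a b hab => ?_, h14, fun i => ?_, fun a => ?_⟩
    · by_cases p : a = a0
      · rw [p, e1]; exact h5
      by_cases q : a = b0
      · rw [q, e2]; exact h8
      rw [e3 a p q]; exact h1 a p q
    · by_cases p : a = a0
      · by_cases p' : b = a0
        · exact absurd (p.trans p'.symm) hab
        by_cases q' : b = b0
        · rw [p, q', e1, e2]; exact h11
        rw [p, e1, e3 b p' q']; exact h6 b p' q'
      by_cases q : a = b0
      · by_cases p' : b = a0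
        · rw [q, p', e1, e2]; exact h11.symm
        by_cases q' : b = b0
        · exact absurd (q.trans q'.symm) hab
        rw [q, e2, e3 b p' q']; exact h9 b p' q'
      by_cases p' : b = a0
      · rw [p', e1, e3 a p q]; exact (h6 a p q).symm
      by_cases q' : b = b0
      · rw [q', e2, e3 a p q]; exact (h9 a p q).symm
      rw [e3 a p q, e3 b p' q']; exact h2 a b hab p q p' q'
    · by_cases p : i = g a0
      · rw [p, if_pos rfl, if_neg (fun h => hg h.symm), one_mul]; exact h7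
      by_cases q : i = g b0
      · rw [q, if_neg hg, if_pos rfl, one_mul]; exact h10
      rw [if_neg (fun h => p h.symm), if_neg (fun h => q h.symm), one_mul, one_mul]
      exact h3 i p q
    · by_cases p : a = a0
      · rw [p, e1]; exact iff_of_true ha0 h12
      by_cases q : a = b0
      · rw [q, e2]; exact iff_of_true hb0 h13
      rw [e3 a p q]; exact h4 a p q

lemma rg_odd {z m : ℕ} (hz : 2 ≤ z) (h : Rg z m) : Odd m ∧ Squarefree m := by
  refine ⟨?_, h.1⟩
  rw [← Nat.not_even_iff_odd, even_iff_two_dvd]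
  intro h2
  have := h.2 2 Nat.prime_two h2
  omega

/-- the inner sum -/
lemma inner {C : ℝ} {E : ℕ} (hC : ∀ V T : ℕ, 2 ≤ V → 2 ≤ T → ∀ a b : ℕ → ℝ,
    (∀ m, |a m| ≤ 1) → (∀ m, |b m| ≤ 1) → (∀ m, a m ≠ 0 → Odd m ∧ Squarefree m) →
    (∀ m, b m ≠ 0 → Odd m ∧ Squarefree m) →
    |∑ m ∈ Ioc V T, ∑ n ∈ (Ioc V T).filter (fun n => m * n ≤ T), a m * b n * Jr m n| ≤
      C * (Real.log T) ^ E * T * (V : ℝ) ^ (-(1 / 24 : ℝ)))
    (g : ι → I) (L : ι → ι → Bool) (hL : ∀ a b, L a b = true → g a ≠ g b)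
    {z Y V V0 : ℕ} (κ : ι → ℤ) (b : ι → ℕ → ℝ) (hz : 2 ≤ z) (hY : 3 ≤ Y) (hV0 : 2 ≤ V0)
    (hb : ∀ a p, |b a p| ≤ 1) (A : Finset ι) {a0 b0 : ι} (ha0 : a0 ∈ A) (hb0 : b0 ∈ A)
    (h1 : L a0 b0 = true) (h2 : L b0 a0 = false) (e : ι → ℕ) (hea : e a0 = 1) (heb : e b0 = 1)
    (hP : 0 < ∏ a, e a) :
    |∑ n ∈ Icc 1 Y, ∑ m ∈ Icc 1 Y, @ite ℝ (Q g z Y V V0 A (upd e a0 b0 m n))
      (Classical.propDecidable _)
      ((∏ a, mf (b a) (upd e a0 b0 m n a)) * Sym L κ (upd e a0 b0 m n)) 0| ≤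
      |C| * (Real.log Y) ^ E * (Y * ∏ a, (1 / (e a : ℝ))) * (V0 : ℝ) ^ (-(1 / 24 : ℝ)) := by
  classical
  have hg : g a0 ≠ g b0 := hL _ _ h1
  have hne : b0 ≠ a0 := fun h => hg (by rw [h])
  have hLa : L a0 a0 = false := by
    cases h : L a0 a0 with
    | false => rfl
    | true => exact absurd rfl (hL _ _ h)
  set T : ℕ := Y / ∏ a, e a with hT
  set α : ℕ → ℝ := fun m => if Q1 g z V a0 b0 a0 e m then
    mf (b a0) m * (XX L a0 e m * Jr (κ a0) m) else 0 with hα
  set β : ℕ → ℝ := fun n => if Q1 g z V a0 b0 b0 e n then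
    mf (b b0) n * RR L κ a0 (Function.update e b0 n) else 0 with hβ
  set c : ℝ := if QO g z V V0 A a0 b0 e then ∏ a ∈ (univ.erase a0).erase b0, mf (b a) (e a)
    else 0 with hc
  have hXX : ∀ m, |XX L a0 e m| ≤ 1 := by
    intro m
    unfold XX
    apply abs_prod_le_one
    intro k _
    rw [abs_mul]
    exact mul_le_one₀ (abs_ite_Jr _ _ _) (abs_nonneg _) (abs_ite_Jr _ _ _)
  have hα1 : ∀ m, |α m| ≤ 1 := by
    intro m
    simp only [hα]
    split_ifs
    · rw [abs_mul, abs_mul]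
      exact mul_le_one₀ (abs_mf_le (hb a0) m) (by positivity)
        (mul_le_one₀ (hXX m) (abs_nonneg _) (abs_Jr_le _ _))
    · simp
  have hβ1 : ∀ m, |β m| ≤ 1 := by
    intro m
    simp only [hβ]
    split_ifs
    · rw [abs_mul]
      exact mul_le_one₀ (abs_mf_le (hb b0) m) (abs_nonneg _) (abs_RR_le _ _ _ _)
    · simp
  have hα2 : ∀ m, α m ≠ 0 → Odd m ∧ Squarefree m := by
    intro m hm
    simp only [hα] at hm
    split_ifs at hm with h
    · exact rg_odd hz h.1
    · exact absurd rfl hm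
  have hβ2 : ∀ m, β m ≠ 0 → Odd m ∧ Squarefree m := by
    intro m hm
    simp only [hβ] at hm
    split_ifs at hm with h
    · exact rg_odd hz h.1
    · exact absurd rfl hm
  have hc1 : |c| ≤ 1 := by
    simp only [hc]
    split_ifs
    · exact abs_prod_le_one _ _ fun a _ => abs_mf_le (hb a) _
    · simp
  -- the summand
  have hterm : ∀ m n : ℕ, 1 ≤ n → @ite ℝ (Q g z Y V V0 A (upd e a0 b0 m n))
      (Classical.propDecidable _)
      ((∏ a, mf (b a) (upd e a0 b0 m n a)) * Sym L κ (upd e a0 b0 m n)) 0 =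
      if V0 < m ∧ V0 < n ∧ m * n ≤ T then c * (α m * β n * Jr m n) else 0 := by
    intro m n hn
    have hQ := Q_iff g z Y V V0 A hg ha0 hb0 e hea heb hP m n
    by_cases hV : V0 < m ∧ V0 < n ∧ m * n ≤ T
    · rw [if_pos hV]
      by_cases hQ' : Q g z Y V V0 A (upd e a0 b0 m n)
      · rw [if_pos hQ']
        obtain ⟨k1, k2, k3, k4, -⟩ := hQ.1 hQ'
        simp only [hα, hβ, hc, if_pos k1, if_pos k2, if_pos k3]
        have hs : Sym L κ (upd e a0 b0 m n) = XX L a0 (Function.update e b0 n) m *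
            Jr (κ a0) m * RR L κ a0 (Function.update e b0 n) := sym_update L κ a0 hLa _ m
        have hx : XX L a0 (Function.update e b0 n) m = Jr m n * XX L a0 e m := by
          unfold XX
          have hmem : b0 ∈ univ.erase a0 := mem_erase.2 ⟨hne, mem_univ _⟩
          rw [← mul_prod_erase _ _ hmem, ← mul_prod_erase _ _ hmem]
          simp only [h1, h2, Function.update_self, if_true, Bool.false_eq_true, if_false, mul_one,
            heb, Jr_one_right, one_mul]
          congr 1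
          refine prod_congr rfl fun k hk => ?_
          rw [Function.update_of_ne (mem_erase.1 hk).1]
        have hm : ∏ a, mf (b a) (upd e a0 b0 m n a) = mf (b a0) m * (mf (b b0) n *
            ∏ a ∈ (univ.erase a0).erase b0, mf (b a) (e a)) := by
          rw [← mul_prod_erase univ _ (mem_univ a0), upd_a,
            ← mul_prod_erase (univ.erase a0) _ (mem_erase.2 ⟨hne, mem_univ b0⟩), upd_b e hne]
          congr 2
          refine prod_congr rfl fun k hk => ?_
          rw [upd_c e (mem_erase.1 (mem_erase.1 hk).2).1 (mem_erase.1 hk).1]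
        rw [hs, hx, hm]
        ring
      · rw [if_neg hQ']
        by_cases k1 : QO g z V V0 A a0 b0 e
        · by_cases k2 : Q1 g z V a0 b0 a0 e m
          · by_cases k3 : Q1 g z V a0 b0 b0 e n
            · have k4 : ¬ m.Coprime n := fun k4 => hQ' (hQ.2 ⟨k1, k2, k3, k4, hV⟩)
              rw [Jr_eq_zero (by omega) k4]
              ring
            · simp only [hβ, if_neg k3]
              ring
          · simp only [hα, if_neg k2]
            ring
        · simp only [hc, if_neg k1]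
          ring
    · rw [if_neg hV, if_neg fun h => hV (hQ.1 h).2.2.2.2]
  have hTY : T ≤ Y := Nat.div_le_self _ _
  have hsum : ∑ n ∈ Icc 1 Y, ∑ m ∈ Icc 1 Y, @ite ℝ (Q g z Y V V0 A (upd e a0 b0 m n))
      (Classical.propDecidable _)
      ((∏ a, mf (b a) (upd e a0 b0 m n a)) * Sym L κ (upd e a0 b0 m n)) 0 =
      c * ∑ m ∈ Ioc V0 T, ∑ n ∈ (Ioc V0 T).filter (fun n => m * n ≤ T), α m * β n * Jr m n := by
    rw [sum_comm, mul_sum]
    have hstep : ∀ m ∈ Icc 1 Y, (∑ n ∈ Icc 1 Y, @ite ℝ (Q g z Y V V0 A (upd e a0 b0 m n))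
      (Classical.propDecidable _)
      ((∏ a, mf (b a) (upd e a0 b0 m n a)) * Sym L κ (upd e a0 b0 m n)) 0) =
        ∑ n ∈ Icc 1 Y, if V0 < m ∧ V0 < n ∧ m * n ≤ T then c * (α m * β n * Jr m n) else 0 := by
      intro m _
      refine sum_congr rfl fun n hn => hterm m n (mem_Icc.1 hn).1
    rw [sum_congr rfl hstep]
    symm
    rw [← sum_subset (s₁ := Ioc V0 T) (s₂ := Icc 1 Y)]
    · refine sum_congr rfl fun m hm => ?_
      rw [mem_Ioc] at hm
      rw [mul_sum, sum_filter]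
      rw [← sum_subset (s₁ := Ioc V0 T) (s₂ := Icc 1 Y)]
      · refine sum_congr rfl fun n hn => ?_
        rw [mem_Ioc] at hn
        by_cases h : m * n ≤ T
        · rw [if_pos h, if_pos ⟨hm.1, hn.1, h⟩]
        · rw [if_neg h, if_neg fun h' => h h'.2.2]
      · intro n hn
        rw [mem_Ioc] at hn
        rw [mem_Icc]
        omega
      · intro n hn hn'
        rw [mem_Icc] at hn
        rw [mem_Ioc] at hn'
        rw [if_neg]
        rintro ⟨-, k1, k2⟩
        apply hn'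
        refine ⟨k1, le_trans ?_ k2⟩
        exact Nat.le_mul_of_pos_left n (by omega)
    · intro m hm
      rw [mem_Ioc] at hm
      rw [mem_Icc]
      omega
    · intro m hm hm'
      rw [mem_Icc] at hm
      rw [mem_Ioc] at hm'
      refine sum_eq_zero fun n hn => ?_
      rw [mem_Icc] at hn
      rw [if_neg]
      rintro ⟨k0, k1, k2⟩
      apply hm'
      refine ⟨k0, le_trans ?_ k2⟩
      exact Nat.le_mul_of_pos_right m (by omega)
  rw [hsum, abs_mul]
  have hlogY : 0 ≤ Real.log Y := Real.log_natCast_nonneg Y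
  have hprod : ∏ a, (1 / (e a : ℝ)) = 1 / ((∏ a, e a : ℕ) : ℝ) := by
    rw [prod_div_distrib, prod_const_one]
    push_cast
    rfl
  have hPR : (0 : ℝ) < ((∏ a, e a : ℕ) : ℝ) := by exact_mod_cast hP
  have hTR : (T : ℝ) ≤ Y * ∏ a, (1 / (e a : ℝ)) := by
    rw [hprod, mul_one_div]
    exact Nat.cast_div_le
  have hbd : |∑ m ∈ Ioc V0 T, ∑ n ∈ (Ioc V0 T).filter (fun n => m * n ≤ T),
      α m * β n * Jr m n| ≤
      |C| * (Real.log Y) ^ E * (Y * ∏ a, (1 / (e a : ℝ))) * (V0 : ℝ) ^ (-(1 / 24 : ℝ)) := by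
    rcases lt_or_ge T 2 with hT2 | hT2
    · rw [Ioc_eq_empty (by omega), sum_empty, abs_zero]
      have : (0 : ℝ) ≤ Y * ∏ a, (1 / (e a : ℝ)) := (Nat.cast_nonneg T).trans hTR
      positivity
    · refine (hC V0 T hV0 hT2 α β hα1 hβ1 hα2 hβ2).trans ?_
      have hlogT : 0 ≤ Real.log T := Real.log_natCast_nonneg T
      have hlog : Real.log T ≤ Real.log Y :=
        Real.log_le_log (by positivity) (by exact_mod_cast hTY)
      calc C * (Real.log T) ^ E * T * (V0 : ℝ) ^ (-(1 / 24 : ℝ))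
          ≤ |C| * (Real.log T) ^ E * T * (V0 : ℝ) ^ (-(1 / 24 : ℝ)) := by
            gcongr
            exact le_abs_self C
        _ ≤ _ := by gcongr
  calc |c| * _ ≤ 1 * _ := mul_le_mul_of_nonneg_right hc1 (abs_nonneg _)
    _ = _ := one_mul _
    _ ≤ _ := hbd

theorem link (h : Pool.Agent.W262.TW.BLT) : Pool.Agent.W262.TW.LINK := by
  classical
  obtain ⟨C, E, hC⟩ := h
  intro ι I _ _ g L hL
  refine ⟨|C| * 2 ^ Fintype.card ι, E + Fintype.card ι, ?_⟩
  intro z Y V V0 κ b hz hY hV0 hb A a0 b0 ha0 hb0 h1 h2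
  have hg : g a0 ≠ g b0 := hL _ _ h1
  have hne : b0 ≠ a0 := fun h => hg (by rw [h])
  have hsum : ∑ e ∈ (TT g z Y V).filter (fun e => ∀ a, a ∈ A ↔ V0 < e a),
      (∏ a, mf (b a) (e a)) * Sym L κ e =
      ∑ e ∈ Fintype.piFinset (fun _ : ι => Icc 1 Y), @ite ℝ (Q g z Y V V0 A e)
        (Classical.propDecidable _) ((∏ a, mf (b a) (e a)) * Sym L κ e) 0 := by
    rw [sum_filter]
    unfold TT
    rw [sum_filter]
    refine sum_congr rfl fun e _ => ?_
    unfold Q
    by_cases k1 : ∀ a, Rg z (e a)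
    · by_cases k2 : ∀ a b, a ≠ b → (e a).Coprime (e b)
      · by_cases k3 : ∏ a, e a ≤ Y
        · by_cases k4 : ∀ i, V < ∏ a ∈ univ.filter (fun a => g a = i), e a
          · by_cases k5 : ∀ a, a ∈ A ↔ V0 < e a
            · rw [if_pos ⟨k1, k2, k3, k4⟩, if_pos k5, if_pos ⟨k1, k2, k3, k4, k5⟩]
            · rw [if_pos ⟨k1, k2, k3, k4⟩, if_neg k5, if_neg fun h => k5 h.2.2.2.2]
          · rw [if_neg fun h => k4 h.2.2.2, if_neg fun h => k4 h.2.2.2.1]
        · rw [if_neg fun h => k3 h.2.2.1, if_neg fun h => k3 h.2.2.1]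
      · rw [if_neg fun h => k2 h.2.1, if_neg fun h => k2 h.2.1]
    · rw [if_neg fun h => k1 h.1, if_neg fun h => k1 h.1]
  rw [hsum, sum_update _ a0, sum_update _ b0, Function.update_of_ne hne]
  set t : ι → Finset ℕ := Function.update (Function.update (fun _ : ι => Icc 1 Y) a0 {1}) b0 {1}
    with ht
  have hlogY : 1 ≤ Real.log Y := by
    rw [Real.le_log_iff_exp_le (by positivity)]
    have h3 : (3 : ℝ) ≤ Y := by exact_mod_cast hY
    linarith [Real.exp_one_lt_d9]
  have hlog0 : 0 ≤ Real.log Y := zero_le_one.trans hlogY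
  have hmem : ∀ e ∈ Fintype.piFinset t, e a0 = 1 ∧ e b0 = 1 ∧ 0 < ∏ a, e a := by
    intro e he
    rw [Fintype.mem_piFinset] at he
    have k1 : e b0 = 1 := by
      have := he b0
      rw [ht, Function.update_self, mem_singleton] at this
      exact this
    have k2 : e a0 = 1 := by
      have := he a0
      rw [ht, Function.update_of_ne hne.symm, Function.update_self, mem_singleton] at this
      exact this
    refine ⟨k2, k1, prod_pos fun a _ => ?_⟩
    by_cases p : a = a0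
    · rw [p, k2]; exact one_pos
    by_cases q : a = b0
    · rw [q, k1]; exact one_pos
    have := he a
    rw [ht, Function.update_of_ne q, Function.update_of_ne p, mem_Icc] at this
    exact this.1
  have hbd : ∀ e ∈ Fintype.piFinset t,
      |∑ n ∈ Icc 1 Y, ∑ m ∈ Icc 1 Y, @ite ℝ (Q g z Y V V0 A (upd e a0 b0 m n))
      (Classical.propDecidable _)
      ((∏ a, mf (b a) (upd e a0 b0 m n a)) * Sym L κ (upd e a0 b0 m n)) 0| ≤
      |C| * (Real.log Y) ^ E * (Y * ∏ a, (1 / (e a : ℝ))) * (V0 : ℝ) ^ (-(1 / 24 : ℝ)) := by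
    intro e he
    obtain ⟨k1, k2, k3⟩ := hmem e he
    exact inner hC g L hL κ b hz hY hV0 hb A ha0 hb0 h1 h2 e k1 k2 k3
  have hharm : ∀ a, ∑ m ∈ t a, (1 / (m : ℝ)) ≤ 1 + Real.log Y := by
    intro a
    by_cases q : a = b0
    · rw [ht, q, Function.update_self, sum_singleton]
      simp only [Nat.cast_one, div_one]
      linarith
    by_cases p : a = a0
    · rw [ht, Function.update_of_ne q, p, Function.update_self, sum_singleton]
      simp only [Nat.cast_one, div_one]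
      linarith
    rw [ht, Function.update_of_ne q, Function.update_of_ne p]
    have h3 := harmonic_le_one_add_log Y
    rw [harmonic_eq_sum_Icc] at h3
    push_cast at h3
    simpa [one_div] using h3
  have hprod : ∑ e ∈ Fintype.piFinset t, ∏ a, (1 / (e a : ℝ)) ≤
      (2 * Real.log Y) ^ Fintype.card ι := by
    calc ∑ e ∈ Fintype.piFinset t, ∏ a, (1 / (e a : ℝ)) = ∏ a, ∑ m ∈ t a, (1 / (m : ℝ)) :=
          (prod_univ_sum t (fun _ m => (1 / (m : ℝ)))).symm
      _ ≤ ∏ _a : ι, (2 * Real.log Y) := by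
          refine prod_le_prod (fun a _ => sum_nonneg fun m _ => by positivity) fun a _ => ?_
          exact (hharm a).trans (by linarith)
      _ = (2 * Real.log Y) ^ Fintype.card ι := by
          rw [prod_const, card_univ]
  refine (abs_sum_le_sum_abs _ _).trans ((sum_le_sum hbd).trans ?_)
  calc ∑ e ∈ Fintype.piFinset t, |C| * (Real.log Y) ^ E * (Y * ∏ a, (1 / (e a : ℝ))) *
          (V0 : ℝ) ^ (-(1 / 24 : ℝ))
      = (|C| * (Real.log Y) ^ E * Y * (V0 : ℝ) ^ (-(1 / 24 : ℝ))) *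
          ∑ e ∈ Fintype.piFinset t, ∏ a, (1 / (e a : ℝ)) := by
        rw [mul_sum]
        exact sum_congr rfl fun e _ => by ring
    _ ≤ (|C| * (Real.log Y) ^ E * Y * (V0 : ℝ) ^ (-(1 / 24 : ℝ))) *
          (2 * Real.log Y) ^ Fintype.card ι := by
        exact mul_le_mul_of_nonneg_left hprod (by positivity)
    _ = |C| * 2 ^ Fintype.card ι * (Real.log Y) ^ (E + Fintype.card ι) * Y *
          (V0 : ℝ) ^ (-(1 / 24 : ℝ)) := by
        rw [mul_pow, pow_add]
        ring

end Pool.Agent.W924.TW
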